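import Pool.Agent.Lib.MP_2f2443_an.IP.P.re
import Pool.Agent.Lib.MP_2f2443_an.IP.P.pa
import Pool.Agent.Lib.MP_2f2443_an.IP.P.nw
import Pool.Agent.Lib.MP_2f2443_an.IP.P.mi
import Pool.Agent.Lib.MP_2f2443_an.IP.P.co
import Pool.Agent.Lib.MP_2f2443_an.IP.P.hx
import Pool.Agent.Lib.MP_2f2443_an.IP.P.ch
import Pool.Agent.Lib.MP_2f2443_an.IP.P.mp
import Pool.Agent.Lib.MP_2f2443_an.IP.P.vb
import Pool.Agent.Lib.MP_2f2443_an.IP.P.en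
import Pool.Agent.Lib.MP_2f2443_an.IP.P.cr
import Pool.Agent.Lib.MP_2f2443_an.IP.P.mx
import Pool.Agent.Lib.MP_2f2443_an.IP.P.id
import Pool.Agent.Lib.MP_2f2443_an.IP.P.in
import Pool.Agent.Lib.MP_2f2443_an.IP.P.ne
import Pool.Agent.Lib.MP_2f2443_an.IP.P.is
import Pool.Agent.Lib.MP_2f2443_an.IP.P.fi
import Pool.Agent.Lib.MP_2f2443_an.IP.P.ci
import Pool.Agent.Lib.MP_2f2443_an.IP.P.or
import Pool.Agent.Lib.MP_2f2443_an.IP.P.pr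
import Pool.Agent.Lib.MP_2f2443_an.IP.P.st
import Pool.Agent.Lib.MP_2f2443_an.IP.P.cx
import Pool.Agent.Lib.MP_2f2443_an.IP.P.un
import Pool.Agent.Lib.MP_2f2443_an.IP.P.wa
import Pool.Agent.Lib.MP_2f2443_an.IP.P.fb

/-!
# MP_2f2443_an, project IP: assembly
-/

set_option autoImplicit false

namespace Pool.Agent.MP_2f2443_an.IP

theorem t_mp : S_mp := p_mp (p_pa p_re) (p_hx p_nw p_mi) p_ch p_co

theorem t_is : T_is := p_is t_mp p_en (p_mx p_en (p_cr p_vb p_en)) p_id (p_in p_en) p_ne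

theorem t_fi : T_fi := (p_fi t_is).1

theorem t_fi2 : ∀ (k : ℝ), k ≠ 0 → ∀ (q : ℕ), 0 < q →
    {P : ℝ × ℝ | P.1 ∈ Set.Ico (0 : ℝ) 1 ∧ P.2 ∈ Set.Ico (0 : ℝ) 1 ∧
      ∃ p r : ℤ, (SMR k)^[q] P = (P.1 + (p : ℝ), P.2 + (r : ℝ))}.Finite := (p_fi t_is).2

theorem t_un : T_un := p_un (p_st p_or) (p_cx p_or p_pr)

theorem t_fb : ∀ (k : ℝ), k ≠ 0 →
    interior (⋃ (g : ℝ → ℝ) (_ : IsCircle k g), {P : ℝ × ℝ | P.2 = g P.1}) = ∅ :=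
  p_fb t_fi p_or t_un p_ci (p_wa t_fi p_or p_pr)

end Pool.Agent.MP_2f2443_an.IP
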