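import Mathlib

/-!
# MP_2f2443_an, project IP (periodic points of the standard map are isolated; no region filled by
invariant circles): definitions
-/

set_option autoImplicit false

namespace Pool.Agent.MP_2f2443_an.IP

open Filter Topology

/-- The force `V(z) = (k / 2π) sin 2πz`, complex. -/
noncomputable def VC (k z : ℂ) : ℂ := k / (2 * Real.pi) * Complex.sin (2 * Real.pi * z)

/-- The force `V(x) = (k / 2π) sin 2πx`, real. -/
noncomputable def VR (k x : ℝ) : ℝ := k / (2 * Real.pi) * Real.sin (2 * Real.pi * x)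

/-- The lift of the standard map, complexified. -/
noncomputable def SMC (k : ℂ) (P : ℂ × ℂ) : ℂ × ℂ := (P.1 + P.2, P.2 + VC k (P.1 + P.2))

/-- The lift of the standard map `f_k` to `ℝ × ℝ`. -/
noncomputable def SMR (k : ℝ) (P : ℝ × ℝ) : ℝ × ℝ := (P.1 + P.2, P.2 + VR k (P.1 + P.2))

/-- The complex points with `f^q (x, y) = (x + p, y + r)`. -/
def PerC (k : ℂ) (q : ℕ) (p r : ℤ) : Set (ℂ × ℂ) :=
  {P | (SMC k)^[q] P = (P.1 + (p : ℂ), P.2 + (r : ℂ))}

/-- The graph of `g` (a `1`-periodic continuous function) is an invariant circle of `f_k`, on the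
universal cover `ℝ × ℝ` of the cylinder. -/
def IsCircle (k : ℝ) (g : ℝ → ℝ) : Prop :=
  Continuous g ∧ (∀ x, g (x + 1) = g x) ∧
    SMR k '' {P : ℝ × ℝ | P.2 = g P.1} = {P : ℝ × ℝ | P.2 = g P.1}

/-! ### auxiliary notions -/

/-- The dynamics `x ↦ h x` of the standard map on an invariant circle `y = h x - x`. -/
structure Circ (k : ℝ) (h : ℝ → ℝ) : Prop where
  cont : Continuous h
  mono : StrictMono h
  deg : ∀ x, h (x + 1) = h x + 1
  eq : ∀ x, h (h x) = 2 * h x - x + VR k (h x)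

/-- `h` has the rotation number `τ`. -/
def HasRot (h : ℝ → ℝ) (τ : ℝ) : Prop := ∀ (n : ℕ) (x : ℝ), |h^[n] x - x - n * τ| ≤ 1

/-- The function `ψ = ∑_{n < q} ((Im y_n)² - (Re y_n)² / 2)`. -/
noncomputable def psi (k : ℂ) (q : ℕ) (P : ℂ × ℂ) : ℝ :=
  ∑ n ∈ Finset.range q,
    ((((SMC k)^[n] P).2.im) ^ 2 - (((SMC k)^[n] P).2.re) ^ 2 / 2)

/-- The entire function `L` with `ψ(P) = ψ(Q) + Re L(P) + (1/4) ∑ |y_n(P) - y_n(Q)|²`. -/
noncomputable def LL (k : ℂ) (q : ℕ) (Q P : ℂ × ℂ) : ℂ :=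
  ∑ n ∈ Finset.range q,
    ((-2 * Complex.I * (((SMC k)^[n] Q).2.im : ℂ) - (((SMC k)^[n] Q).2.re : ℂ)) *
        (((SMC k)^[n] P).2 - ((SMC k)^[n] Q).2) -
      3 / 4 * (((SMC k)^[n] P).2 - ((SMC k)^[n] Q).2) ^ 2)

/-- The mixed symmetric function `∑_{|A| = J} ∏_{i ∈ A} b_i ∏_{i ∉ A} a_i`. -/
noncomputable def mixed {m : ℕ} (a b : Fin m → ℂ) (J : ℕ) : ℂ :=
  ∑ A ∈ Finset.powersetCard J (Finset.univ : Finset (Fin m)),
    (∏ i ∈ A, b i) * ∏ i ∈ Finset.univ \ A, a i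

/-- `Z x` lists the zeros of `F (x, ·)` in the ball `B(y₀, R)` with multiplicity, for all `x` in the
ball `B(x₀, r)`; there are no zeros on the boundary; all the power sums of entire functions are
holomorphic in `x`. -/
structure Roots (F : ℂ × ℂ → ℂ) (x₀ y₀ : ℂ) (r R : ℝ) (m : ℕ) (Z : ℂ → Fin m → ℂ) : Prop where
  mem : ∀ x ∈ Metric.ball x₀ r, ∀ i, Z x i ∈ Metric.ball y₀ R
  zero : ∀ x ∈ Metric.ball x₀ r, ∀ w ∈ Metric.closedBall y₀ R, F (x, w) = 0 ↔ ∃ i, Z x i = w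
  hol : ∀ H : ℂ × ℂ → ℂ, Differentiable ℂ H →
    DifferentiableOn ℂ (fun x => ∑ i, H (x, Z x i)) (Metric.ball x₀ r)

end Pool.Agent.MP_2f2443_an.IP
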