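import Pool.Agent.Lib.MP_2f2443_an.IP.Defs

/-!
# MP_2f2443_an, project IP: statements of the pieces
-/

set_option autoImplicit false

namespace Pool.Agent.MP_2f2443_an.IP

open Filter Topology

/-! ## Part R: a maximum principle on the common zeros of two entire functions on `ℂ²` -/

/-- **re** (residues).  `f` entire without zeros on the circle `|w - c| = R`: there are finitely many
`z_i` in the open ball (the zeros with multiplicity) with `∮ h f'/f = 2πi ∑ h(z_i)` for all entire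
`h`.
PROOF.  The zeros of `f` in the closed ball are finitely many; `f = (∏ (w - z_i)) g` with `g` entire
without zeros in the closed ball (divide by `w - z` one zero at a time, `dslope`, induction on the
order of vanishing, or Mathlib's factorisation lemmas).  `f'/f = ∑ 1/(w - z_i) + g'/g` on the circle;
Cauchy's integral formula for `h/(w - z_i)`, Cauchy's theorem for `h g'/g`. -/
def S_re : Prop := ∀ (f : ℂ → ℂ) (c : ℂ) (R : ℝ), Differentiable ℂ f → 0 < R →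
  (∀ w ∈ Metric.sphere c R, f w ≠ 0) →
  ∃ (m : ℕ) (z : Fin m → ℂ), (∀ i, z i ∈ Metric.ball c R) ∧
    (∀ w ∈ Metric.closedBall c R, f w = 0 ↔ ∃ i, z i = w) ∧
    ∀ h : ℂ → ℂ, Differentiable ℂ h →
      (∮ w in C(c, R), h w * (deriv f w / f w)) = 2 * Real.pi * Complex.I * ∑ i, h (z i)

/-- **pa** (the roots depending on a parameter).
PROOF.  Assume `S_re`.  For every `x` in the ball apply `S_re` to `F (x, ·)`.  The number `m(x)` of
roots is `(2πi)⁻¹ ∮ F_y/F dy`, a continuous function of `x` with integer values on a (preconnected)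
ball, so it is constant `= m` (if the ball is empty, i.e. `r ≤ 0`, take `m = 0`).  For entire `H` the
sum `∑ H (x, Z x i) = (2πi)⁻¹ ∮ H (x, y) F_y(x, y) / F(x, y) dy` is holomorphic in `x`:
differentiate under the integral sign (the integrand is a holomorphic function of `x`, jointly
continuous on `ball × sphere`). -/
def S_pa : Prop := ∀ (F : ℂ × ℂ → ℂ) (x₀ y₀ : ℂ) (r R : ℝ), Differentiable ℂ F → 0 < R →
  (∀ x ∈ Metric.ball x₀ r, ∀ y ∈ Metric.sphere y₀ R, F (x, y) ≠ 0) →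
  ∃ (m : ℕ) (Z : ℂ → Fin m → ℂ), Roots F x₀ y₀ r R m Z

/-- **nw** (Newton).  If all power sums of `u x i`, `i < m`, are differentiable on `S`, so is their
product.
PROOF.  Newton's identities (`MvPolynomial.mul_esymm_eq_sum`, evaluated at `u x`), strong induction:
all elementary symmetric functions are differentiable; `∏ = esymm m`. -/
def S_nw : Prop := ∀ (m : ℕ) (u : ℂ → Fin m → ℂ) (S : Set ℂ),
  (∀ j : ℕ, 0 < j → DifferentiableOn ℂ (fun x => ∑ i, (u x i) ^ j) S) →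
  DifferentiableOn ℂ (fun x => ∏ i, u x i) S

/-- **mi** (polarisation).
PROOF.  `∏ (u_i + s v_i) = ∑_J s^J mixed u v J` (`Finset.prod_add`), a polynomial in `s` of degree
`≤ m`; its coefficients are fixed linear combinations of its values at `s = 0, 1, …, m` (inverse of a
Vandermonde matrix). -/
def S_mi : Prop := ∀ (m : ℕ) (u v : ℂ → Fin m → ℂ) (S : Set ℂ),
  (∀ s : ℂ, DifferentiableOn ℂ (fun x => ∏ i, (u x i + s * v x i)) S) →
  ∀ J : ℕ, DifferentiableOn ℂ (fun x => mixed (u x) (v x) J) S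

/-- **co** (combinatorics of `mixed`).  If `mixed a 1 j = 0` for `j < J` and `mixed a 1 J ≠ 0` then
exactly `J` of the `a_i` vanish, and `mixed a b J = (∏_{a_i = 0} b_i) · mixed a 1 J` for all `b`.
PROOF.  Let `N` be the number of vanishing `a_i`.  For `j < N` every term of `mixed a b j` contains a
factor `a_i = 0`; for `j = N` only the term `A = {i | a_i = 0}` is not zero, so
`mixed a b N = (∏_{a_i = 0} b_i)(∏_{a_i ≠ 0} a_i)`, in particular `mixed a 1 N ≠ 0`; so `J = N`. -/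
def S_co : Prop := ∀ (m : ℕ) (a : Fin m → ℂ) (J : ℕ),
  (∀ j < J, mixed a (fun _ => 1) j = 0) → mixed a (fun _ => 1) J ≠ 0 →
  (Finset.univ.filter fun i => a i = 0).card = J ∧
    ∀ b : Fin m → ℂ,
      mixed a b J = (∏ i ∈ Finset.univ.filter (fun i => a i = 0), b i) * mixed a (fun _ => 1) J

/-- **hx** (the mixed functions of the roots are holomorphic).
PROOF.  From `S_nw` and `S_mi` with `u x i = G (x, Z x i)`, `v x i = H (x, Z x i)`: the power sums of
`G + s H` are sums of the entire function `(G + s H)^j` over the roots, `Roots.hol`. -/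
def S_hx : Prop := ∀ (F G H : ℂ × ℂ → ℂ) (x₀ y₀ : ℂ) (r R : ℝ) (m : ℕ) (Z : ℂ → Fin m → ℂ),
  Roots F x₀ y₀ r R m Z → Differentiable ℂ G → Differentiable ℂ H → ∀ J : ℕ,
  DifferentiableOn ℂ (fun x => mixed (fun i => G (x, Z x i)) (fun i => H (x, Z x i)) J)
    (Metric.ball x₀ r)

/-- **ch** (choice of the polydisc).  `F` entire, `F (x₀, y₀) = 0`, `F (x₀, ·) ≢ 0`: there are
arbitrarily small `R > 0` and then `r > 0` such that `y₀` is the only zero of `F (x₀, ·)` in the closed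
ball `B(y₀, R)`, and `F ≠ 0` on `B(x₀, r) × sphere y₀ R`; and for every `ε > 0` there is `δ > 0` such
that all zeros of `F` in `B(x₀, δ) × closedBall y₀ R` are in `B(x₀, δ) × B(y₀, ε)`.
PROOF.  Isolated zeros of `F (x₀, ·)`; compactness of the sphere and of
`closedBall y₀ R \ ball y₀ ε`. -/
def S_ch : Prop := ∀ (F : ℂ × ℂ → ℂ) (x₀ y₀ : ℂ), Differentiable ℂ F → F (x₀, y₀) = 0 →
  (∃ y, F (x₀, y) ≠ 0) →
  ∃ R > 0, (∀ y ∈ Metric.closedBall y₀ R, F (x₀, y) = 0 → y = y₀) ∧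
    (∃ r > 0, ∀ x ∈ Metric.ball x₀ r, ∀ y ∈ Metric.sphere y₀ R, F (x, y) ≠ 0) ∧
    ∀ ε > 0, ∃ δ > 0, ∀ x ∈ Metric.ball x₀ δ, ∀ y ∈ Metric.closedBall y₀ R, F (x, y) = 0 →
      y ∈ Metric.ball y₀ ε

/-- **mp** (the maximum principle on the common zeros of `F`, `G`).
PROOF.  Assume the negation: there is a neighbourhood `N` of `P₀ = (x₀, y₀)` such that
`Re (L P) < 0` for all accumulation points `P ∈ N`, `P ≠ P₀`, of `Fs = {F = G = 0}`.  Take `R`, `r`
from `S_ch` and `m`, `Z` from `S_pa`.  Put `q_J x = mixed (G (x, Z x ·)) 1 J`, holomorphic on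
`B(x₀, r)` by `S_hx`; `q_m = 1`.  Let `J` be the least `J` such that `q_J` is not identically zero on
`B(x₀, r)`.  Its zeros are isolated: shrink `r` to `r'` such that `q_J ≠ 0` on the punctured ball
`S' = B(x₀, r') \ {x₀}`.  By `S_co`, for `x ∈ S'` exactly `J` of the `G (x, Z x i)` vanish, and for
every entire `H` the function `E_H x = ∏_{i : G (x, Z x i) = 0} H (x, Z x i) = mixed(G,H,J)/q_J` is
holomorphic on `S'`.
(1) `J ≥ 1`: if `J = 0` there are no points of `Fs` in `S' × closedBall y₀ R`, and over `x₀` only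
`P₀`, so `P₀` is not an accumulation point of `Fs`.
(2) If `x₁ ∈ S'`, `y₁ = Z x₁ i` and `G (x₁, y₁) = 0` then `(x₁, y₁)` is an accumulation point of `Fs`:
take `H (x, y) = y - y₁`; `E_H x₁ = 0` and `E_H` is continuous at `x₁`, so for `x → x₁`, `x ≠ x₁`, the
product of the `J` numbers `|Z x i - y₁|`, `G (x, Z x i) = 0`, tends to `0`, hence so does their
minimum.
(3) By the last part of `S_ch` shrink `r'` so that `(x, Z x i) ∈ N` for `x ∈ S'`.  Take `H = exp L`: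
by (2) and the assumption `|E_H x| = ∏ exp (Re L) < 1` on `S'`, and `E_H x → 1` for `x → x₀` (the
`J` points `(x, Z x i)` tend to `P₀`, `L P₀ = 0`).  So `E_H` extends to a holomorphic function on
`B(x₀, r')` with value `1` at `x₀` and modulus `< 1` elsewhere, against the maximum modulus
principle. -/
def S_mp : Prop := ∀ (F G L : ℂ × ℂ → ℂ) (P₀ : ℂ × ℂ),
  Differentiable ℂ F → Differentiable ℂ G → Differentiable ℂ L →
  (∃ y, F (P₀.1, y) ≠ 0) → L P₀ = 0 →
  AccPt P₀ (𝓟 {P | F P = 0 ∧ G P = 0}) →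
  ∀ N ∈ 𝓝 P₀, ∃ P ∈ N, P ≠ P₀ ∧ AccPt P (𝓟 {P | F P = 0 ∧ G P = 0}) ∧ 0 ≤ (L P).re

/-! ## Part S: complex periodic points of the standard map are isolated -/

/-- **vb** (growth of the force).  PROOF.  `|sin z| ≥ sinh |Im z| ≥ (e^{|Im z|} - 1)/2`. -/
def S_vb : Prop := ∀ k z : ℂ,
  ‖k‖ / (4 * Real.pi) * (Real.exp (2 * Real.pi * |z.im|) - 1) ≤ ‖VC k z‖

/-- **en** (the iterates are entire, commute with the integer translations, `x_{n+1} = x_n + y_n`,
`y_{n+1} = y_n + V(x_{n+1})`; the set `PerC` is closed and invariant under `(x, y) ↦ (x + 1, y)`, so is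
its set of accumulation points; `psi`, `LL` are continuous / entire, `psi (x + 1, y) = psi (x, y)`). -/
def S_en : Prop := ∀ (k : ℂ),
  (∀ n : ℕ, Differentiable ℂ fun P => ((SMC k)^[n] P).1) ∧
  (∀ n : ℕ, Differentiable ℂ fun P => ((SMC k)^[n] P).2) ∧
  (∀ (n : ℕ) (P : ℂ × ℂ) (j : ℤ),
    (SMC k)^[n] (P.1 + j, P.2) = (((SMC k)^[n] P).1 + j, ((SMC k)^[n] P).2)) ∧
  (∀ (q : ℕ) (p r : ℤ), IsClosed {P | AccPt P (𝓟 (PerC k q p r))} ∧
    {P | AccPt P (𝓟 (PerC k q p r))} ⊆ PerC k q p r ∧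
    ∀ P, AccPt P (𝓟 (PerC k q p r)) → ∀ j : ℤ, AccPt (P.1 + (j : ℂ), P.2) (𝓟 (PerC k q p r))) ∧
  (∀ q : ℕ, Continuous (psi k q)) ∧
  (∀ (q : ℕ) (P : ℂ × ℂ) (j : ℤ), psi k q (P.1 + j, P.2) = psi k q P) ∧
  (∀ (q : ℕ) (Q : ℂ × ℂ), Differentiable ℂ (LL k q Q) ∧ LL k q Q Q = 0)

/-- **cr** (coercivity).
PROOF.  Let `y_n`, `x_n` be the coordinates of `f^n P`, `Δ = max_{n<q} |y_n|`.  For `1 ≤ n ≤ q`:
`V(x_n) = y_n - y_{n-1}` with `y_q = y_0 + r`, so `|V(x_n)| ≤ 2Δ + |r|` and by `S_vb`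
`|Im x_n| ≤ ℓ := (2π)⁻¹ log (1 + (4π/|k|)(2Δ + |r|))`, also for `n = 0` as `x_q = x_0 + p`.
`Im y_n = Im x_{n+1} - Im x_n`, so `|Im y_n| ≤ 2ℓ`; for the `n` with `|y_n| = Δ`,
`(Re y_n)² ≥ Δ² - 4ℓ²`.  So `psi ≤ 4qℓ² - (Δ² - 4ℓ²)/2`; as `ℓ` grows like `log Δ`, `psi ≥ c` bounds
`Δ`, hence `|y_0|` and `|Im x_0| ≤ ℓ`. -/
def S_cr : Prop := S_vb → S_en → ∀ (k : ℂ), k ≠ 0 → ∀ (q : ℕ), 0 < q → ∀ (p r : ℤ) (c : ℝ),
  ∃ B : ℝ, ∀ P ∈ PerC k q p r, c ≤ psi k q P → |P.1.im| ≤ B ∧ ‖P.2‖ ≤ B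

/-- **mx** (a maximum point).
PROOF.  `K` = the set of accumulation points of `PerC`, closed, contained in `PerC`, invariant under
integer translations of `x` (`S_en`).  Let `P₁ ∈ K`, `c = psi P₁`.  The set
`K ∩ {c ≤ psi} ∩ {0 ≤ Re x ≤ 1}` is closed and bounded (`S_cr`), not empty (translate `P₁`); let `P₀`
be a maximum point of `psi` on it.  For every `P ∈ K` either `psi P < c ≤ psi P₀` or a translate of
`P` is in the set. -/
def S_mx : Prop := S_en → (∀ (k : ℂ), k ≠ 0 → ∀ (q : ℕ), 0 < q → ∀ (p r : ℤ) (c : ℝ),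
    ∃ B : ℝ, ∀ P ∈ PerC k q p r, c ≤ psi k q P → |P.1.im| ≤ B ∧ ‖P.2‖ ≤ B) →
  ∀ (k : ℂ), k ≠ 0 → ∀ (q : ℕ), 0 < q → ∀ (p r : ℤ),
  (∃ P, AccPt P (𝓟 (PerC k q p r))) →
  ∃ P₀, AccPt P₀ (𝓟 (PerC k q p r)) ∧
    ∀ P, AccPt P (𝓟 (PerC k q p r)) → psi k q P ≤ psi k q P₀

/-- **id** (the identity).  PROOF.  Termwise: with `d = a + ib + e`,
`(Im d)² - (Re d)²/2 = b² - a²/2 + Re ((-2ib - a) e - (3/4) e²) + |e|²/4`. -/
def S_id : Prop := ∀ (k : ℂ) (q : ℕ) (Q P : ℂ × ℂ),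
  psi k q P = psi k q Q + (LL k q Q P).re +
    1 / 4 * ∑ n ∈ Finset.range q, ‖((SMC k)^[n] P).2 - ((SMC k)^[n] Q).2‖ ^ 2

/-- **in** (local injectivity of `P ↦ (y_n)_{n<q}` on `PerC`).
PROOF.  If `y_n(P) = y_n(Q)` for all `n < q`, `q ≥ 1`, `P, Q ∈ PerC`: also for `n = q`; so
`V(x_q(P)) = V(x_q(Q))`, i.e. `V(P.1) = V(Q.1)`, and `P.2 = Q.2`.  As `V` is a nonconstant entire
function, `V(x) ≠ V(Q.1)` for `x ≠ Q.1` close to `Q.1`. -/
def S_in : Prop := S_en → ∀ (k : ℂ), k ≠ 0 → ∀ (q : ℕ), 0 < q → ∀ (p r : ℤ),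
  ∀ Q ∈ PerC k q p r, ∃ N ∈ 𝓝 Q, ∀ P ∈ N, P ∈ PerC k q p r → P ≠ Q →
    ∃ n < q, ((SMC k)^[n] P).2 ≠ ((SMC k)^[n] Q).2

/-- **ne** (`x_q (x, ·) - x - p` is not identically zero).
PROOF.  For fixed `x` and real `y → +∞`: by induction on `n` there is `C_n` with
`|x_n - (x + n y)| ≤ C_n` for all real `y`, since then `|Im x_n|` is bounded and so is `V(x_n)`. -/
def S_ne : Prop := ∀ (k : ℂ) (q : ℕ), 0 < q → ∀ (p : ℤ) (x : ℂ),
  ∃ y : ℂ, ((SMC k)^[q] (x, y)).1 ≠ x + p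

/-- **is** (complex periodic points are isolated).
PROOF.  Otherwise take the maximum point `P₀` (`S_mx`).  Apply `S_mp` to
`F = x_q - x - p`, `G = y_q - y - r`, `L = LL k q P₀` and the neighbourhood `N` of `S_in`:
there is an accumulation point `P ∈ N`, `P ≠ P₀`, of `PerC` with `Re L(P) ≥ 0`.  By `S_id` and the
maximality `0 ≥ psi P - psi P₀ = Re L(P) + (1/4) ∑ ‖…‖² ≥ (1/4) ∑ ‖…‖²`, so all the differences are
zero, against `S_in` (accumulation points are in `PerC`). -/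
def S_is : Prop := S_mp → S_en →
  (∀ (k : ℂ), k ≠ 0 → ∀ (q : ℕ), 0 < q → ∀ (p r : ℤ),
    (∃ P, AccPt P (𝓟 (PerC k q p r))) →
    ∃ P₀, AccPt P₀ (𝓟 (PerC k q p r)) ∧
      ∀ P, AccPt P (𝓟 (PerC k q p r)) → psi k q P ≤ psi k q P₀) →
  S_id →
  (∀ (k : ℂ), k ≠ 0 → ∀ (q : ℕ), 0 < q → ∀ (p r : ℤ),
    ∀ Q ∈ PerC k q p r, ∃ N ∈ 𝓝 Q, ∀ P ∈ N, P ∈ PerC k q p r → P ≠ Q →
      ∃ n < q, ((SMC k)^[n] P).2 ≠ ((SMC k)^[n] Q).2) →
  S_ne →
  ∀ (k : ℂ), k ≠ 0 → ∀ (q : ℕ), 0 < q → ∀ (p r : ℤ) (P : ℂ × ℂ), ¬ AccPt P (𝓟 (PerC k q p r))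

/-- The conclusion of `S_is`. -/
def T_is : Prop :=
  ∀ (k : ℂ), k ≠ 0 → ∀ (q : ℕ), 0 < q → ∀ (p r : ℤ) (P : ℂ × ℂ), ¬ AccPt P (𝓟 (PerC k q p r))

/-- **fi** (finiteness for the real map).
PROOF.  (a) For a bounded set `B` of `ℝ × ℝ` the set of real `P ∈ B` with
`f^q P = (P.1 + p, P.2 + r)` is finite: otherwise it has an accumulation point (compactness of the
closure of `B`), whose image in `ℂ × ℂ` is an accumulation point of `PerC` (the inclusion
`ℝ × ℝ → ℂ × ℂ` is injective, continuous and commutes with the maps).  (b) On the square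
`[0,1) × [0,1)`: `f^q P - P` is bounded there, so only finitely many `(p, r)` occur. -/
def S_fi : Prop := T_is →
  (∀ (k : ℝ), k ≠ 0 → ∀ (q : ℕ), 0 < q → ∀ (p r : ℤ) (B : Set (ℝ × ℝ)), Bornology.IsBounded B →
    {P : ℝ × ℝ | P ∈ B ∧ (SMR k)^[q] P = (P.1 + (p : ℝ), P.2 + (r : ℝ))}.Finite) ∧
  (∀ (k : ℝ), k ≠ 0 → ∀ (q : ℕ), 0 < q →
    {P : ℝ × ℝ | P.1 ∈ Set.Ico (0 : ℝ) 1 ∧ P.2 ∈ Set.Ico (0 : ℝ) 1 ∧
      ∃ p r : ℤ, (SMR k)^[q] P = (P.1 + (p : ℝ), P.2 + (r : ℝ))}.Finite)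

/-- The first part of the conclusion of `S_fi`. -/
def T_fi : Prop :=
  ∀ (k : ℝ), k ≠ 0 → ∀ (q : ℕ), 0 < q → ∀ (p r : ℤ) (B : Set (ℝ × ℝ)), Bornology.IsBounded B →
    {P : ℝ × ℝ | P ∈ B ∧ (SMR k)^[q] P = (P.1 + (p : ℝ), P.2 + (r : ℝ))}.Finite

/-! ## Part B: no region is filled by invariant circles -/

/-- **ci** (an invariant circle gives a circle map).
PROOF.  `h x = x + g x`.  `f (x, g x) = (h x, g (h x))` because the image is on the graph, so
`g (h x) = g x + V(h x)`, i.e. `h (h x) = h x + (h x - x) + V(h x)`.  `h` is continuous and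
`h (x + 1) = h x + 1`.  Injective: `h x = h x'` gives `f (x, g x) = f (x', g x')` (both are
`(h x, g (h x))`) and `f` is injective.  A continuous injective function with `h (x + 1) = h x + 1` is
strictly increasing. -/
def S_ci : Prop := ∀ (k : ℝ) (g : ℝ → ℝ), IsCircle k g → Circ k fun x => x + g x

/-- **or** (orbits on a circle; existence and properties of the rotation number).
PROOF.  Induction for the first part.  The rotation number is Mathlib's
`CircleDeg1Lift.translationNumber`: `|h^n x - x - n τ| ≤ 1`; if `q τ < p` then `h^q x < x + p` for all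
`x`; if `q τ > p` then `h^q x > x + p` for all `x`; if `q τ = p` there is `x` with `h^q x = x + p`
(`translationNumber_eq_rat_iff`, or: otherwise `h^q x - x - p` has one sign, is bounded away from
zero by periodicity, and `|h^{qn} x - x - n p|` would be unbounded).  The last two lines: `HasRot`
determines `τ` (divide by `n`). -/
def S_or : Prop :=
  (∀ (k : ℝ) (h : ℝ → ℝ), Circ k h → ∀ (n : ℕ) (x : ℝ),
    (SMR k)^[n] (x, h x - x) = (h^[n] x, h^[n + 1] x - h^[n] x)) ∧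
  ∀ h : ℝ → ℝ, Continuous h → StrictMono h → (∀ x, h (x + 1) = h x + 1) →
    (∃ τ, HasRot h τ) ∧
    ∀ τ, HasRot h τ →
      (∀ τ', HasRot h τ' → τ' = τ) ∧
      ∀ (q : ℕ), 0 < q → ∀ p : ℤ,
        ((q : ℝ) * τ < p → ∀ x, h^[q] x < x + p) ∧
        ((p : ℝ) < q * τ → ∀ x, x + p < h^[q] x) ∧
        ((q : ℝ) * τ = p → ∃ x, h^[q] x = x + p)

/-- **pr** (Poincaré recurrence on the torus).
PROOF.  `f` commutes with the integer translations (the second one because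
`f (x, y + 1) = (x + y + 1, y + 1 + V(x + y + 1)) = f (x, y) + (1, 1)`), so it induces a map `T` of the
torus `AddCircle (1:ℝ) × AddCircle (1:ℝ)`, the composition of the two shears `(x, y) ↦ (x + y, y)` and
`(x, y) ↦ (x, y + V x)`, which preserve the (finite) product measure
(`MeasurePreserving.skew_product`).  So `T^q` is conservative
(`MeasurePreserving.conservative`, `Conservative.exists_mem_iterate_mem`), and the image of an open
set is open, of positive measure. -/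
def S_pr : Prop := ∀ (k : ℝ) (q : ℕ), 0 < q → ∀ W : Set (ℝ × ℝ), IsOpen W → W.Nonempty →
  ∃ P ∈ W, ∃ n : ℕ, 0 < n ∧ ∃ m m' : ℤ, ∃ P' ∈ W,
    (SMR k)^[q * n] P = (P'.1 + (m : ℝ), P'.2 + (m' : ℝ))

/-- **st** (strict monotonicity of the rotation number at irrational values).
PROOF.  Suppose `τ` is irrational.  By compactness (periodicity) `h₂ ≥ h₁ + ε`, `ε > 0`.
Choose integers `q_j ≥ 1`, `p_j` with `q_j τ - p_j < 0` strictly increasing to `0`, `q_j` strictly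
increasing.  `z_j = h₁^{q_j} 0 - p_j` is strictly increasing and `< 0` (apply `h₁^{q_j}` to
`h₁^{q_{j+1} - q_j} 0 > p_{j+1} - p_j`, which holds because `(q_{j+1} - q_j) τ > p_{j+1} - p_j`); let
`z` be its limit.  Then for large `j`: `z - ε < h₁^{q_j} z - p_j < z` (lower bound: for fixed `i` and
all `l ≥ l(i, j)`, `h₁^{q_j} z_l - p_j = h₁^{q_j + q_l} 0 - p_j - p_l ≥ z_i` for `j > i`, because
`(q_j + q_l - q_i) τ ≥ p_j + p_l - p_i` for large `l`; let `l → ∞`; and `z_i > z - ε` for `i` large).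
Hence `h₂^{q_j} z ≥ h₁ (h₁^{q_j - 1} z) + ε > z + p_j`, so `q_j τ ≥ p_j` for `τ` the rotation number
of `h₂`: contradiction.  (Any other proof is welcome, e.g. with Mathlib's semiconjugacy to the
rotation.) -/
def S_st : Prop := S_or → ∀ h₁ h₂ : ℝ → ℝ, Continuous h₁ → StrictMono h₁ →
  (∀ x, h₁ (x + 1) = h₁ x + 1) → Continuous h₂ → StrictMono h₂ → (∀ x, h₂ (x + 1) = h₂ x + 1) →
  (∀ x, h₁ x < h₂ x) → ∀ τ, HasRot h₁ τ → HasRot h₂ τ → ¬ Irrational τ

/-- **cx** (two circles with a common point and the same irrational rotation number are equal).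
PROOF.  Suppose `h₁ x₀ ≠ h₂ x₀`; by symmetry `h₁ x₀ < h₂ x₀`.  The set `{h₁ < h₂}` is open, invariant
under `x ↦ x + 1`, and not everything (`h₁ a₀ = h₂ a₀`); let `(a, b) ∋ x₀` be its component:
`h₁ = h₂` at `a` and `b`, `b ≤ a + 1`.  STEP: if `h₁ x < X < h₂ x` then for `X' = 2X + V(X) - x`:
`h₁ X < X' < h₂ X` (`X' = h_i X + h_i⁻¹ X - x` and `h₁⁻¹ X > x > h₂⁻¹ X`; `h_i⁻¹ X = 2X + V(X) - h_i X`).
Let `D = {(x, y) | a < x < b, h₁ x < x + y < h₂ x}`, open, nonempty.  By induction for `P ∈ D`,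
`f^n P = (x_n, y_n)` has `h₁^n a < x_n < h₁^n b` and `h₁ x_n < x_n + y_n < h₂ x_n`; and `h₁ = h₂` at
`h₁^n a = h₂^n a` and `h₁^n b` (by the equation: if `h₁ a = h₂ a =: A` then
`h₁ A = 2A + V(A) - a = h₂ A`), with `h₁ < h₂` on `(h₁^n a, h₁^n b)` (if `h₁ = h₂` at a point `B'` of it,
go back: `h₁⁻¹ B' = 2B' + V(B') - h₁ B' = h₂⁻¹ B'` …, to get a point of `(a, b)` with `h₁ = h₂`).
By `S_pr` (with `q = 1`) there are `P, P' ∈ D`, `n ≥ 1`, `m, m'` with `f^n P = P' + (m, m')`.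
`x_n ∈ (a + m, b + m)`, `x_n + y_n ∈ (h₁ x_n, h₂ x_n)` and `x_n + y_n - m' ∈ (h₁ x_n, h₂ x_n)` (from
`P' ∈ D` by periodicity), and `h₂ x_n - h₁ x_n < 1` (between two consecutive translates of the zero
`a` of `h₂ - h₁`), so `m' = 0`.  Both `(a + m, b + m)` and `(h₁^n a, h₁^n b)` are components of
`{h₁ < h₂}` and they share the point `x_n`, so `h₁^n a = a + m`.  So `n τ = m`, `τ` is rational. -/
def S_cx : Prop := S_or → S_pr → ∀ (k : ℝ) (h₁ h₂ : ℝ → ℝ) (τ : ℝ), Circ k h₁ → Circ k h₂ →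
  HasRot h₁ τ → Irrational τ → (∃ a, h₁ a = h₂ a) → h₁ = h₂

/-- The conclusions of `S_st` and `S_cx` together: two circles with the same irrational rotation
number are equal. -/
def T_un : Prop := ∀ (k : ℝ) (h₁ h₂ : ℝ → ℝ) (τ : ℝ), Circ k h₁ → Circ k h₂ →
  HasRot h₁ τ → HasRot h₂ τ → Irrational τ → h₁ = h₂

/-- **un**.  PROOF.  If `h₁` and `h₂` agree somewhere: the second hypothesis (`S_cx`).  Otherwise, by
the intermediate value theorem, `h₁ < h₂` everywhere or `h₂ < h₁` everywhere: `S_st`. -/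
def S_un : Prop :=
  (∀ h₁ h₂ : ℝ → ℝ, Continuous h₁ → StrictMono h₁ →
    (∀ x, h₁ (x + 1) = h₁ x + 1) → Continuous h₂ → StrictMono h₂ → (∀ x, h₂ (x + 1) = h₂ x + 1) →
    (∀ x, h₁ x < h₂ x) → ∀ τ, HasRot h₁ τ → HasRot h₂ τ → ¬ Irrational τ) →
  (∀ (k : ℝ) (h₁ h₂ : ℝ → ℝ) (τ : ℝ), Circ k h₁ → Circ k h₂ →
    HasRot h₁ τ → Irrational τ → (∃ a, h₁ a = h₂ a) → h₁ = h₂) → T_un

/-- **wa** (no open set is filled with circles of the same rational rotation number `p/q`).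
PROOF.  By `T_fi` there is `P₀ ∈ W` with `f^q P₀ ≠ P₀ + (p, 0)` (a small closed ball is infinite); on
its circle `y = h x - x`, `h^q x₀ ≠ x₀ + p` (otherwise also `h^{q+1} x₀ = h x₀ + p` and `S_or` gives
`f^q P₀ = P₀ + (p, 0)`).  Say `h^q x₀ > x₀ + p` (the other case is the same with the inequalities
reversed).  By continuity of `f^q` choose `δ > 0` and a ball `W' ⊆ W` around `P₀` of radius
`ε < δ/2` with `(f^q P).1 > P.1 + p + δ` on `W'`.  By `S_pr` there are `P, P' ∈ W'`, `n ≥ 1`, `m`, `m'`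
with `f^{qn} P = P' + (m, m')`.  Let `h` be the circle through `P = (x, ·)` and `g = h^q - p`, strictly
increasing, commuting with `+1`, with a fixed point (`S_or`), so there is a fixed point `x_f` with
`x_f ≤ x < x_f + 1`, and `x_f < x` as `g x > x`.  `g^n x = (f^{qn} P).1 - n p ≥ g x > x + δ`, and
`g^j x < x_f + 1` for all `j`.  With `M = m - n p` (integer), `g^n x ∈ (x + M - 2ε, x + M + 2ε)`, so
`M ≥ 1`.  The next displacement `D = g^{n+1} x - g^n x` is in `(0, 1)`, because all `g^j x` increase in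
`(x_f, x_f + 1)`.  Since `f (x, y + 1) = f (x, y) + (1, 1)`, we have
`f^q (P' + (m, m')) = f^q P' + (m + q m', m')`, so `D = D' + q m'` with `D' = (f^q P').1 - P'.1 - p`, and
`D' ∈ (δ, 1)` since `P' ∈ W'` lies on a circle `h'` with rotation number `p/q` (`h'^q - p` has fixed
points, so it moves every point by less than `1`).  Both are in `(0, 1)` and differ by an integer, so
`m' = 0` and `D = D' > δ`.  Hence `g^{n+1} x > g^n x + δ > x + M - 2ε + δ > x + 1 > x_f + 1`: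
contradiction. -/
def S_wa : Prop := T_fi → S_or → S_pr → ∀ (k : ℝ), k ≠ 0 → ∀ (q : ℕ), 0 < q → ∀ (p : ℤ)
  (W : Set (ℝ × ℝ)), IsOpen W → W.Nonempty →
  ¬ ∀ P ∈ W, ∃ h, Circ k h ∧ h P.1 = P.1 + P.2 ∧ HasRot h ((p : ℝ) / q)

/-- **fb** (final step).
PROOF.  Suppose a nonempty open `U` all of whose points lie on circles (`P ∈ U` gives `h` with
`Circ k h`, `h P.1 = P.1 + P.2`, `HasRot h τ`).  `ρ P := τ` does not depend on the choice of `h`
(`(f^n P).1 = h^n x` and `|h^n x - x - n τ| ≤ 1`), and `|ρ P - ((f^n P).1 - P.1)/n| ≤ 1/n`, so `ρ` is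
continuous on `U` (uniform limit of continuous functions).
Case 1: `ρ` is constant on a nonempty open `W ⊆ U`.  If the value is irrational, all the circles through
points of `W` are equal by `T_un`, but two points of `W` with the same first coordinate are not on one
graph.  If it is rational: `S_wa`.
Case 2: otherwise.  Take a closed rectangle `I × J ⊆ U` with nonempty interior.  There is `x₀` in the
interior of `I` such that `ρ (x₀, ·)` is not constant on `J`: otherwise `ρ (x, y) = r x` on the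
rectangle, and as `ρ` is constant along circles (`ρ (x', h x' - x') = ρ (x, h x - x)`, the same `h`)
`r` is locally constant, Case 1.  So `ρ (x₀, y₁) ≠ ρ (x₀, y₂)`; choose a rational `p/q` strictly
between; by continuity it is strictly between `ρ (x, y₁)` and `ρ (x, y₂)` for all `x` near `x₀`; by
`S_or`, `(f^q (x, y)).1 - x - p` has opposite signs at `y = y₁, y₂`, so it vanishes for some
`y = y(x)` between.  For the circle `h` through `(x, y(x))`: `h^q x = x + p`, so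
`h^{q+1} x = h x + p` and `f^q (x, y) = (x + p, y)`.  Infinitely many points (`x` varies in an
interval) in a bounded set, against `T_fi`. -/
def S_fb : Prop := T_fi → S_or → T_un → S_ci →
  (∀ (k : ℝ), k ≠ 0 → ∀ (q : ℕ), 0 < q → ∀ (p : ℤ)
    (W : Set (ℝ × ℝ)), IsOpen W → W.Nonempty →
    ¬ ∀ P ∈ W, ∃ h, Circ k h ∧ h P.1 = P.1 + P.2 ∧ HasRot h ((p : ℝ) / q)) →
  ∀ (k : ℝ), k ≠ 0 →
    interior (⋃ (g : ℝ → ℝ) (_ : IsCircle k g), {P : ℝ × ℝ | P.2 = g P.1}) = ∅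

end Pool.Agent.MP_2f2443_an.IP
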